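import Pool.Graph.R_seed8.TH876.Sums

/-!
# Points of `x + 1 + (-x - 1) = 0` with given absolute values outside `S`

The number of the points `x` of a number field of degree `n` for which the absolute values of `x` and `x + 1`
outside `S` are prescribed is at most `C (n) ^ (|S| + 1)`, uniformly in the prescribed values.  (This is the
theorem of Evertse on the equation `a u + b v = 1` in `S`-units, uniform in `a`, `b`.)  The points the part of
which outside `S` is light are counted by the library theorem `light_count`; for the others a gap principle holds,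
and their heights have bounded quotients.
-/

set_option autoImplicit false

namespace Pool.Agent.H76.PX

open NumberField IsDedekindDomain Finset Pool.Agent.H691R3 Pool.Agent.TH876.Loc Pool.Agent.TH876.Pade

variable {K : Type} [Field K] [NumberField K]

/-- outside `S` the coordinates have the same absolute values -/
def Same (S : Finset (Pr K)) (x y : K) : Prop := ∀ v, v ∉ S → ∀ i, fv v (L i x) = fv v (L i y)

theorem Same.mx_eq {S : Finset (Pr K)} {x y : K} (h : Same S x y) {v : Pr K} (hv : v ∉ S) :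
    mx (Sum.inr v : Pl K) x = mx (Sum.inr v : Pl K) y := by
  unfold mx M
  have h1 : ∀ i, av (Sum.inr v : Pl K) (L i x) = av (Sum.inr v : Pl K) (L i y) := h v hv
  rw [h1 0, h1 1, h1 2]

theorem Same.lg_eq {S : Finset (Pr K)} {x y : K} (h : Same S x y) {v : Pr K} (hv : v ∉ S) (i : Fin 3) :
    lg (Sum.inr v : Pl K) (L i x) = lg (Sum.inr v : Pl K) (L i y) := by
  unfold lg
  have h1 : av (Sum.inr v : Pl K) (L i x) = av (Sum.inr v : Pl K) (L i y) := h v hv i
  rw [h1]

theorem Same.gd_eq {S : Finset (Pr K)} {x y : K} (h : Same S x y) {v : Pr K} (hv : v ∉ S) :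
    gd (Sum.inr v : Pl K) x = gd (Sum.inr v : Pl K) y := by
  unfold gd df
  refine Finset.sum_congr rfl fun i _ => ?_
  rw [h.mx_eq hv, h.lg_eq hv]

/-- the gap principle -/
theorem pair0 {S : Finset (Pr K)} {x y : K} (hx : Pt x) (hy : Pt y) (hxy : x ≠ y) (hs : Same S x y)
    (h0 : 0 < hgt x) (hk : hgt x ≤ hgt y) (ε : ℝ) (hε : 0 ≤ ε)
    (hcell : ∀ v ∈ Spl S, ∀ i, df v i x / hgt x ≤ df v i y / hgt y + ε) :
    2 * hgt x ≤ 2 * (dK K * Real.log 2) + (1 + (Spl S).card * ε) * hgt y := by
  classical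
  have hy0 : 0 < hgt y := lt_of_lt_of_le h0 hk
  have hD : Dl 0 x y ≠ 0 := by
    rw [Dl_zero]
    exact sub_ne_zero.2 hxy
  set V : Finset (Pr K) := (sp x ∪ sp y) ∪ ((fv_support_finite hD).toFinset ∪ S) with hV
  have hVx : sp x ⊆ V := Finset.subset_union_left.trans Finset.subset_union_left
  have hVy : sp y ⊆ V := Finset.subset_union_right.trans Finset.subset_union_left
  have hVS : S ⊆ V := Finset.subset_union_right.trans Finset.subset_union_right
  have hVD : ∀ v, v ∉ V → fv v (Dl 0 x y) = 1 := by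
    intro v hv
    by_contra h
    apply hv
    rw [hV]
    refine Finset.mem_union_right _ (Finset.mem_union_left _ ?_)
    rw [Set.Finite.mem_toFinset]
    exact h
  set q : Pl K → ℝ := fun v => mx v y - mx v x + (if v ∈ Spl S then ε * hgt y else 0) with hq
  have hqv : ∀ v, ∀ i, lg v (L i y) - (2 * 0 + 1 : ℕ) * lg v (L i x) ≤ q v := by
    intro v i
    rw [hq]
    simp only
    by_cases hv : v ∈ Spl S
    · rw [if_pos hv]
      have e1 : lg v (L i y) = mx v y - df v i y := by unfold df; ring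
      have e2 : lg v (L i x) = mx v x - df v i x := by unfold df; ring
      rw [e1, e2]
      have d1 := df_nonneg v i hx
      have h1 := hcell v hv i
      have h2 : df v i x * hgt y ≤ (df v i y + ε * hgt y) * hgt x := by
        rw [div_add' _ _ _ hy0.ne', div_le_div_iff₀ h0 hy0] at h1
        linarith
      have h3 : df v i x * hgt x ≤ df v i x * hgt y := mul_le_mul_of_nonneg_left hk d1
      have h4 : df v i x ≤ df v i y + ε * hgt y :=
        le_of_mul_le_mul_right (h3.trans h2) h0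
      push_cast
      linarith
    · rw [if_neg hv]
      rcases v with w | u
      · exact absurd (inl_mem_Spl S w) hv
      · rw [inr_mem_Spl] at hv
        rw [hs.mx_eq hv, hs.lg_eq hv]
        push_cast
        linarith
  have hsum := Finset.sum_le_sum (s := Spl V) fun v _ => local_ineq v 0 hx hy hD (q v) (hqv v)
  rw [Finset.sum_add_distrib, sum_lg hD hVD, ← Finset.mul_sum, hgt_eq hx hVx,
    Finset.sum_add_distrib, Finset.sum_add_distrib, ← Finset.mul_sum, sum_cv, ← Finset.mul_sum,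
    Finset.sum_comm (s := Spl V), Fin.sum_univ_three, sum_lgL hx hVx, sum_lgL hx hVx,
    sum_lgL hx hVx] at hsum
  have hqsum : ∑ v ∈ Spl V, q v = hgt y - hgt x + (Spl S).card * (ε * hgt y) := by
    rw [hq]
    simp only
    rw [Finset.sum_add_distrib, Finset.sum_sub_distrib, hgt_eq hx hVx, hgt_eq hy hVy]
    congr 1
    rw [← Finset.sum_filter, Finset.filter_mem_eq_inter, Finset.inter_eq_right.2 (Spl_mono hVS),
      Finset.sum_const, nsmul_eq_mul]
  rw [hqsum] at hsum
  push_cast at hsum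
  nlinarith [hsum]

/-- distinct points of one cell have heights of ratio at least `4 / 3` -/
theorem ratio0 {S : Finset (Pr K)} {x y : K} (hx : Pt x) (hy : Pt y) (hxy : x ≠ y) (hs : Same S x y)
    (h0 : 0 < hgt x) (hle : hgt x ≤ hgt y) {ε : ℝ} (hε : 0 ≤ ε)
    (hεθ : (Spl S).card * ε ≤ 1 / 8) (hbig : 8 * (dK K * Real.log 2) ≤ hgt x)
    (hcell : ∀ v ∈ Spl S, ∀ i, df v i x / hgt x ≤ df v i y / hgt y + ε) :
    4 / 3 * hgt x ≤ hgt y := by
  have h1 := pair0 hx hy hxy hs h0 hle ε hε hcell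
  have hy0 : 0 < hgt y := lt_of_lt_of_le h0 hle
  have h2 : ((Spl S).card * ε) * hgt y ≤ 1 / 8 * hgt y := mul_le_mul_of_nonneg_right hεθ hy0.le
  nlinarith

theorem out_congr {S : Finset (Pr K)} {x y : K} (hx : Pt x) (hy : Pt y) (hs : Same S x y) :
    out S x = out S y := by
  classical
  rw [← out_eq S hx (Finset.subset_union_left : sp x ⊆ sp x ∪ sp y),
    ← out_eq S hy (Finset.subset_union_right : sp y ⊆ sp x ∪ sp y)]
  refine Finset.sum_congr rfl fun v hv => ?_
  exact hs.gd_eq (Finset.mem_sdiff.1 hv).2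

theorem out_le {S : Finset (Pr K)} {x : K} (hx : Pt x) : out S x ≤ 3 * hgt x := by
  classical
  rw [← sum_gd hx (Finset.Subset.refl (sp x)), sum_Spl]
  unfold out
  have h1 : 0 ≤ ∑ w : InfinitePlace K, gd (Sum.inl w : Pl K) x :=
    Finset.sum_nonneg fun w _ => gd_nonneg _ hx
  have h2 : ∑ v ∈ sp x \ S, gd (Sum.inr v : Pl K) x ≤ ∑ v ∈ sp x, gd (Sum.inr v : Pl K) x :=
    Finset.sum_le_sum_of_subset_of_nonneg Finset.sdiff_subset fun v _ _ => gd_nonneg _ hx
  linarith

/-- **The points with given absolute values outside `S`.** -/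
theorem fam_count (n : ℕ) :
    ∃ C : ℝ, 1 ≤ C ∧ ∀ (K : Type) [Field K] [NumberField K], Module.finrank ℚ K = n →
      ∀ (S : Finset (Pr K)) (E : Finset K),
      (∀ x ∈ E, Pt x) → (∀ x ∈ E, ∀ y ∈ E, Same S x y) → (E.card : ℝ) ≤ C ^ (S.card + 1) := by
  classical
  obtain ⟨C1, hC1, hlight⟩ := light_count n (1 / 4) (by norm_num)
  have hlog2 : 0 ≤ Real.log 2 := Real.log_nonneg (by norm_num)
  set H0 : ℝ := 8 * ((n : ℝ) * Real.log 2) + 1 with hH0
  have hH0pos : 0 < H0 := by positivity
  obtain ⟨c0, hc0, hsmall⟩ := northcott_uniform n H0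
  set A : ℝ := 2 ^ (3 * (8 + 1)) with hA
  have hA1 : 1 ≤ A := one_le_pow₀ (by norm_num)
  set B : ℝ := 9 * A ^ n with hB
  have hB0 : 0 ≤ B := by positivity
  refine ⟨C1 + (B + c0 + 1) * A, ?_, ?_⟩
  · have : 0 ≤ (B + c0 + 1) * A := by positivity
    linarith
  intro K _ _ hn S E hE hsame
  have hdn : dK K = n := by
    unfold dK
    rw [← hn, ← InfinitePlace.sum_mult_eq]
    push_cast
    rfl
  set r := Fintype.card (InfinitePlace K) with hr
  have hr0 : 0 < r := by
    rw [hr]
    exact Fintype.card_pos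
  have hrn : r ≤ n := by
    rw [hr, ← hn, ← InfinitePlace.sum_mult_eq, ← Finset.card_univ, Finset.card_eq_sum_ones]
    exact Finset.sum_le_sum fun w _ => InfinitePlace.mult_pos
  set t := (Spl S).card with ht
  have htr : t = r + S.card := card_Spl S
  have ht0 : 0 < t := by omega
  set D := 8 * t with hD
  have hD0 : 0 < D := by omega
  -- the light points
  have hEl : ((E.filter (fun x => out S x ≤ 1 / 4 * hgt x)).card : ℝ) ≤ C1 ^ (S.card + 1) := by
    apply hlight K hn S
    intro x hx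
    rw [Finset.mem_filter] at hx
    exact ⟨hE x hx.1, hx.2⟩
  -- the others
  set Eh := E.filter (fun x => ¬ out S x ≤ 1 / 4 * hgt x) with hEh
  have hEhm : ∀ x ∈ Eh, x ∈ E ∧ 1 / 4 * hgt x < out S x := by
    intro x hx
    rw [hEh, Finset.mem_filter, not_le] at hx
    exact hx
  have hratio : ∀ x ∈ Eh, ∀ y ∈ Eh, hgt y ≤ 12 * hgt x := by
    intro x hx y hy
    obtain ⟨x1, x2⟩ := hEhm x hx
    obtain ⟨y1, y2⟩ := hEhm y hy
    have h1 := out_congr (hE x x1) (hE y y1) (hsame x x1 y y1)
    have h2 := out_le (S := S) (hE x x1)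
    linarith
  set Eb := Eh.filter (fun x => H0 ≤ hgt x) with hEb
  have hcell : ∀ c ∈ Eb.image (col (Spl S) D), (Eb.filter (fun x => col (Spl S) D x = c)).card ≤ 9 := by
    intro c _
    set F := Eb.filter (fun x => col (Spl S) D x = c) with hF
    have hFE : ∀ x ∈ F, x ∈ Eh ∧ x ∈ E ∧ 0 < hgt x ∧
        8 * (dK K * Real.log 2) ≤ hgt x ∧ col (Spl S) D x = c := by
      intro x hx
      rw [hF, Finset.mem_filter, hEb, Finset.mem_filter] at hx
      obtain ⟨⟨h1, h2⟩, h3⟩ := hx
      refine ⟨h1, (hEhm x h1).1, lt_of_lt_of_le hH0pos h2, ?_, h3⟩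
      rw [hdn]
      rw [hH0] at h2
      linarith
    have hε : (0 : ℝ) ≤ 1 / D := by positivity
    have htε : (t : ℝ) * (1 / D) ≤ 1 / 8 := by
      have ht0' : (0 : ℝ) < t := by exact_mod_cast ht0
      rw [hD]; push_cast
      apply le_of_eq
      field_simp
    by_cases hne : F.Nonempty
    swap
    · rw [Finset.not_nonempty_iff_eq_empty.1 hne]; simp
    obtain ⟨x, hx, y, hy, h1, _⟩ := chain hgt F (by
      intro x hx y hy hxy hle
      obtain ⟨a0, a1, a3, a4, a5⟩ := hFE x hx
      obtain ⟨b0, b1, _, _, b5⟩ := hFE y hy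
      exact ratio0 (hE x a1) (hE y b1) hxy (hsame x a1 y b1) a3 hle hε htε a4
        (fun v hv i => col_close hD0 (hE y b1) (a5.trans b5.symm) v hv i)) hne
    obtain ⟨a0, a1, a3, a4, a5⟩ := hFE x hx
    obtain ⟨b0, b1, _, _, b5⟩ := hFE y hy
    have h2 := hratio x a0 y b0
    have h3 : (4 / 3 : ℝ) ^ (F.card - 1) < (4 / 3 : ℝ) ^ 9 := by
      have h4 : (4 / 3 : ℝ) ^ (F.card - 1) * hgt x ≤ 12 * hgt x := h1.trans h2
      exact lt_of_le_of_lt (le_of_mul_le_mul_right h4 a3) (by norm_num)
    have h5 := (pow_lt_pow_iff_right₀ (by norm_num : (1 : ℝ) < 4 / 3)).1 h3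
    omega
  have hEl1 : Eb.card ≤ 9 * (Eb.image (col (Spl S) D)).card :=
    Finset.card_le_mul_card_image Eb 9 hcell
  have hEl2 : ((Eb.image (col (Spl S) D)).card : ℝ) ≤ A ^ t := by
    have h1 := count_fun (3 * D) (Eb.image (col (Spl S) D)) (by
      intro f hf
      obtain ⟨x, hx, rfl⟩ := Finset.mem_image.1 hf
      rw [hEb, Finset.mem_filter] at hx
      exact col_sum S (hE x (hEhm x hx.1).1) (lt_of_lt_of_le hH0pos hx.2))
    refine h1.trans (le_of_eq ?_)
    rw [hA, ← pow_mul]
    congr 1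
    rw [Fintype.card_prod, Fintype.card_coe, Fintype.card_fin, ← ht, hD]
    ring
  have hEs : ((Eh.filter (fun x => ¬ H0 ≤ hgt x)).card : ℝ) ≤ c0 := by
    refine hsmall K hn _ ?_
    intro x hx
    rw [Finset.mem_filter] at hx
    exact ⟨hE x (hEhm x hx.1).1, not_le.1 hx.2⟩
  have htot : (Eh.card : ℝ) = Eb.card + (Eh.filter (fun x => ¬ H0 ≤ hgt x)).card := by
    have := Finset.card_filter_add_card_filter_not (s := Eh) (fun x => H0 ≤ hgt x)
    rw [← this]
    push_cast
    rfl
  have hl : (Eb.card : ℝ) ≤ B * A ^ S.card := by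
    calc (Eb.card : ℝ) ≤ 9 * ((Eb.image (col (Spl S) D)).card : ℝ) := by exact_mod_cast hEl1
      _ ≤ 9 * A ^ t := mul_le_mul_of_nonneg_left hEl2 (by norm_num)
      _ ≤ 9 * A ^ (n + S.card) :=
          mul_le_mul_of_nonneg_left (pow_le_pow_right₀ hA1 (by omega)) (by norm_num)
      _ = B * A ^ S.card := by rw [pow_add, hB]; ring
  have hEhc : (Eh.card : ℝ) ≤ ((B + c0 + 1) * A) ^ (S.card + 1) :=
    final_real S.card hA1 hB0 hc0 (by rw [htot]; linarith) hl
  have hall : (E.card : ℝ) = (E.filter (fun x => out S x ≤ 1 / 4 * hgt x)).card + Eh.card := by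
    have := Finset.card_filter_add_card_filter_not (s := E) (fun x => out S x ≤ 1 / 4 * hgt x)
    rw [← this]
    push_cast
    rfl
  rw [hall]
  calc ((E.filter (fun x => out S x ≤ 1 / 4 * hgt x)).card : ℝ) + Eh.card
      ≤ C1 ^ (S.card + 1) + ((B + c0 + 1) * A) ^ (S.card + 1) := add_le_add hEl hEhc
    _ ≤ (C1 + (B + c0 + 1) * A) ^ (S.card + 1) :=
        pow_add_pow_le (by linarith) (by positivity) (Nat.succ_ne_zero _)

end Pool.Agent.H76.PX
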