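import Pool.Agent.H76.PX.Fam

/-!
# Integers at which a polynomial is composed of given primes

If `V ∈ ℤ[X]` has degree `d` and two distinct complex roots, then for every finite set `Q` the number of the
integers `k` for which `V (k)` is composed of the primes of `Q` is at most `C (d) ^ (|Q| + 1)`, uniformly in `V`.
-/

set_option autoImplicit false

namespace Pool.Agent.H76.PX

open NumberField IsDedekindDomain Finset Polynomial Pool.Agent.H691R3 Pool.Agent.TH876.Loc

/-- `n` is composed of the primes of `Q` -/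
def Sm (Q : Finset ℕ) (n : ℤ) : Prop := n ≠ 0 ∧ ∀ q : ℕ, q.Prime → (q : ℤ) ∣ n → q ∈ Q

section Places

variable {K : Type} [Field K] [NumberField K]

theorem fv_int_eq_one {v : Pr K} {N : ℤ} (h : ¬ pv v ∣ N.natAbs) : fv v (N : K) = 1 := by
  have h1 : ((N : ℤ) : 𝓞 K) ∉ v.asIdeal := by
    rw [Int.cast_mem_ideal_iff]
    intro h2
    apply h
    rw [← Int.natCast_dvd]
    exact h2
  have h2 := (FinitePlace.norm_eq_one_iff_notMem K (v := v) ((N : ℤ) : 𝓞 K)).2 h1
  have h3 : (algebraMap (𝓞 K) K) ((N : ℤ) : 𝓞 K) = (N : K) := by simp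
  rw [h3] at h2
  exact h2

theorem fv_int_le (v : Pr K) (N : ℤ) : fv v (N : K) ≤ 1 := by
  rcases Int.natAbs_eq N with h | h
  · rw [h, Int.cast_natCast]
    exact fv_natCast_le v _
  · rw [h, Int.cast_neg, Int.cast_natCast, (fv v).map_neg]
    exact fv_natCast_le v _

theorem finite_above (p : ℕ) : {v : Pr K | pv v = p}.Finite := by
  by_contra hinf
  obtain ⟨E, hE1, hE2⟩ := Set.Infinite.exists_subset_card_eq hinf (Module.finrank ℚ K + 1)
  have := card_above p E (fun v hv => hE1 (Finset.mem_coe.2 hv))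
  omega

variable (K) in
/-- the primes above the prime numbers in `P` -/
noncomputable def Ab (P : Finset ℕ) : Finset (Pr K) :=
  (Set.Finite.biUnion (t := fun p => {v : Pr K | pv v = p}) P.finite_toSet
    (fun p _ => finite_above p)).toFinset

theorem mem_Ab (P : Finset ℕ) (v : Pr K) : v ∈ Ab K P ↔ pv v ∈ P := by
  unfold Ab
  rw [Set.Finite.mem_toFinset]
  simp only [Set.mem_iUnion, Set.mem_ofPred_eq, exists_prop, Finset.mem_coe]
  exact ⟨fun ⟨p, hp, h⟩ => h ▸ hp, fun h => ⟨_, h, rfl⟩⟩

theorem card_Ab (P : Finset ℕ) : (Ab K P).card ≤ Module.finrank ℚ K * P.card := by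
  classical
  refine Finset.card_le_mul_card_image_of_maps_to (f := pv) (fun v hv => (mem_Ab P v).1 hv) _ ?_
  intro p _
  exact card_above p _ fun v hv => (Finset.mem_filter.1 hv).2

/-- Gauss' lemma for a linear factor -/
theorem gauss_lin (v : Pr K) (G : K[X]) (r : K) (h : ∀ i, fv v (((X - C r) * G).coeff i) ≤ 1) (j : ℕ) :
    max 1 (fv v r) * fv v (G.coeff j) ≤ 1 := by
  have hc : ∀ i, ((X - C r) * G).coeff (i + 1) = G.coeff i - r * G.coeff (i + 1) := by
    intro i
    rw [sub_mul, coeff_sub, coeff_X_mul, coeff_C_mul]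
  have hc0 : ((X - C r) * G).coeff 0 = - (r * G.coeff 0) := by
    rw [sub_mul, coeff_sub, coeff_C_mul, mul_coeff_zero, coeff_X_zero, zero_mul, zero_sub]
  rcases le_or_gt (fv v r) 1 with hr | hr
  · rw [max_eq_left hr, one_mul]
    -- downward induction
    have hdown : ∀ m j, G.natDegree + 1 ≤ j + m → fv v (G.coeff j) ≤ 1 := by
      intro m
      induction m with
      | zero =>
        intro j hj
        rw [coeff_eq_zero_of_natDegree_lt (by omega), map_zero]
        exact zero_le_one
      | succ m ih =>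
        intro j hj
        have h1 := ih (j + 1) (by omega)
        have h2 := h (j + 1)
        have h3 : G.coeff j = ((X - C r) * G).coeff (j + 1) + r * G.coeff (j + 1) := by
          rw [hc]; ring
        rw [h3]
        refine (fv_na v _ _).trans (max_le h2 ?_)
        rw [map_mul]
        exact mul_le_one₀ hr ((fv v).nonneg _) h1
    exact hdown (G.natDegree + 1) j (by omega)
  · rw [max_eq_right hr.le, ← map_mul]
    induction j with
    | zero =>
      have h1 := h 0
      rw [hc0, (fv v).map_neg] at h1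
      exact h1
    | succ j ih =>
      have h3 : r * G.coeff (j + 1) = G.coeff j - ((X - C r) * G).coeff (j + 1) := by
        rw [hc]; ring
      rw [h3, sub_eq_add_neg]
      refine (fv_na v _ _).trans (max_le ?_ ?_)
      · rw [map_mul] at ih
        refine le_trans ?_ ih
        exact le_mul_of_one_le_left ((fv v).nonneg _) hr.le
      · rw [(fv v).map_neg]
        exact h (j + 1)

/-- the distance of an integer from a root is determined at the places where `V (k)` is a unit -/
theorem dist_fixed (v : Pr K) (V : ℤ[X]) (r : K) (hr : (V.map (Int.castRingHom K)).eval r = 0) (k : ℤ)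
    (hk : fv v ((V.eval k : ℤ) : K) = 1) : fv v ((k : K) - r) = max 1 (fv v r) := by
  obtain ⟨G, hG⟩ := dvd_iff_isRoot.2 (show (V.map (Int.castRingHom K)).IsRoot r from hr)
  have hcoef : ∀ i, fv v (((X - C r) * G).coeff i) ≤ 1 := by
    intro i
    rw [← hG, coeff_map, eq_intCast]
    exact fv_int_le v _
  have hg := gauss_lin v G r hcoef
  have hle : fv v ((k : K) - r) ≤ max 1 (fv v r) := by
    rw [sub_eq_add_neg]
    refine (fv_na v _ _).trans (max_le_max (fv_int_le v k) ?_)
    rw [(fv v).map_neg]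
  have hm : 0 < max 1 (fv v r) := lt_of_lt_of_le one_pos (le_max_left _ _)
  have hGk : max 1 (fv v r) * fv v (G.eval (k : K)) ≤ 1 := by
    rw [← le_div_iff₀' hm, eval_eq_sum_range]
    refine fv_sum_le v _ _ _ (by positivity) ?_
    intro i _
    rw [map_mul, map_pow, le_div_iff₀' hm, ← mul_assoc]
    refine mul_le_one₀ (hg i) (pow_nonneg ((fv v).nonneg _) _) ?_
    exact pow_le_one₀ ((fv v).nonneg _) (fv_int_le v k)
  have hV : ((V.eval k : ℤ) : K) = ((k : K) - r) * G.eval (k : K) := by
    have h1 : (V.map (Int.castRingHom K)).eval (k : K) = ((V.eval k : ℤ) : K) := by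
      rw [← eq_intCast (Int.castRingHom K) k, eval_map, eval₂_hom, eq_intCast]
    rw [← h1, hG, eval_mul, eval_sub, eval_X, eval_C]
  rw [hV, map_mul] at hk
  apply le_antisymm hle
  by_contra hcon
  rw [not_le] at hcon
  have hG0 : 0 ≤ fv v (G.eval (k : K)) := (fv v).nonneg _
  rcases hG0.eq_or_lt with h0 | h0
  · rw [← h0, mul_zero] at hk
    exact zero_ne_one hk
  · have := mul_lt_mul_of_pos_right hcon h0
    linarith

/-- the points attached to two roots -/
noncomputable def xk (r s : K) (k : ℤ) : K := ((k : K) - r) / (r - s)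

theorem xk_L {r s : K} (hrs : r ≠ s) (k : ℤ) :
    L 0 (xk r s k) = ((k : K) - r) / (r - s) ∧ L 1 (xk r s k) = 1 ∧
      L 2 (xk r s k) = -(((k : K) - s) / (r - s)) := by
  refine ⟨rfl, rfl, ?_⟩
  have h : r - s ≠ 0 := sub_ne_zero.2 hrs
  show -(((k : K) - r) / (r - s)) - 1 = _
  field_simp
  ring

theorem count_field (n : ℕ) : ∃ C : ℝ, 1 ≤ C ∧ ∀ (K : Type) [Field K] [NumberField K],
    Module.finrank ℚ K = n → ∀ (V : ℤ[X]) (r s : K), r ≠ s →
      (V.map (Int.castRingHom K)).eval r = 0 → (V.map (Int.castRingHom K)).eval s = 0 →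
      ∀ (Q : Finset ℕ) (B : Finset ℤ), (∀ k ∈ B, Sm Q (V.eval k)) →
        (B.card : ℝ) ≤ C ^ (n * Q.card + 1) := by
  classical
  obtain ⟨C, hC1, hC⟩ := fam_count n
  refine ⟨C, hC1, ?_⟩
  intro K _ _ hn V r s hrs hr hs Q B hB
  have hrs' : r - s ≠ 0 := sub_ne_zero.2 hrs
  have hinj : Function.Injective (xk r s) := by
    intro k l hkl
    unfold xk at hkl
    rw [div_left_inj' hrs'] at hkl
    have h1 : (k : K) = l := by linear_combination hkl
    exact_mod_cast h1
  have hne : ∀ k ∈ B, ∀ t : K, (V.map (Int.castRingHom K)).eval t = 0 → (k : K) - t ≠ 0 := by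
    intro k hk t ht h0
    have h1 : (k : K) = t := by linear_combination h0
    have h2 : (V.map (Int.castRingHom K)).eval (k : K) = ((V.eval k : ℤ) : K) := by
      rw [← eq_intCast (Int.castRingHom K) k, eval_map, eval₂_hom, eq_intCast]
    rw [h1, ht] at h2
    have h3 : V.eval k = 0 := by exact_mod_cast h2.symm
    exact (hB k hk).1 h3
  have hunit : ∀ k ∈ B, ∀ v : Pr K, v ∉ Ab K Q → fv v ((V.eval k : ℤ) : K) = 1 := by
    intro k hk v hv
    apply fv_int_eq_one
    intro hd
    apply hv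
    rw [mem_Ab]
    exact (hB k hk).2 _ (pv_prime v) (Int.natCast_dvd.2 hd)
  have h1 := hC K hn (Ab K Q) (B.image (xk r s)) (by
    intro x hx
    obtain ⟨k, hk, rfl⟩ := Finset.mem_image.1 hx
    constructor
    · exact div_ne_zero (hne k hk r hr) hrs'
    · have h2 : xk r s k + 1 = ((k : K) - s) / (r - s) := by
        unfold xk
        field_simp
        ring
      rw [h2]
      exact div_ne_zero (hne k hk s hs) hrs') (by
    intro x hx y hy v hv i
    obtain ⟨k, hk, rfl⟩ := Finset.mem_image.1 hx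
    obtain ⟨l, hl, rfl⟩ := Finset.mem_image.1 hy
    obtain ⟨a0, a1, a2⟩ := xk_L hrs k
    obtain ⟨b0, b1, b2⟩ := xk_L hrs l
    have e1 := dist_fixed v V r hr k (hunit k hk v hv)
    have e2 := dist_fixed v V s hs k (hunit k hk v hv)
    have e3 := dist_fixed v V r hr l (hunit l hl v hv)
    have e4 := dist_fixed v V s hs l (hunit l hl v hv)
    fin_cases i
    · show fv v (L 0 (xk r s k)) = fv v (L 0 (xk r s l))
      rw [a0, b0, map_div₀, map_div₀, e1, e3]
    · show fv v (L 1 (xk r s k)) = fv v (L 1 (xk r s l))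
      rw [a1, b1]
    · show fv v (L 2 (xk r s k)) = fv v (L 2 (xk r s l))
      rw [a2, b2, (fv v).map_neg, (fv v).map_neg, map_div₀, map_div₀, e2, e4])
  rw [card_image_of_injective _ hinj] at h1
  refine h1.trans (pow_le_pow_right₀ hC1 ?_)
  have h2 := card_Ab (K := K) Q
  rw [hn] at h2
  omega

end Places

/-- the subfield of `ℂ` generated by two numbers -/
theorem two_roots (V : ℤ[X]) (d : ℕ) (hd : V.natDegree = d) (hV : V ≠ 0) (r s : ℂ)
    (hr : (V.map (Int.castRingHom ℂ)).eval r = 0) (hs : (V.map (Int.castRingHom ℂ)).eval s = 0) :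
    ∃ (K : Type) (_ : Field K) (_ : NumberField K) (φ : K →+* ℂ) (r' s' : K),
      Module.finrank ℚ K ≤ d * d ∧ φ r' = r ∧ φ s' = s := by
  have halg : ∀ t : ℂ, (V.map (Int.castRingHom ℂ)).eval t = 0 →
      IsIntegral ℚ t ∧ (minpoly ℚ t).natDegree ≤ d := by
    intro t ht
    have h1 : aeval t (V.map (Int.castRingHom ℚ)) = 0 := by
      rw [aeval_def, eval₂_map]
      have h2 : (algebraMap ℚ ℂ).comp (Int.castRingHom ℚ) = Int.castRingHom ℂ := RingHom.ext_int _ _
      rw [h2, ← eval_map]
      exact ht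
    have h3 : V.map (Int.castRingHom ℚ) ≠ 0 := by
      rw [Ne, Polynomial.map_eq_zero_iff Int.cast_injective]
      exact hV
    refine ⟨IsAlgebraic.isIntegral ⟨_, h3, h1⟩, ?_⟩
    have h4 := natDegree_le_of_dvd (minpoly.dvd ℚ t h1) h3
    rw [natDegree_map_eq_of_injective Int.cast_injective, hd] at h4
    exact h4
  obtain ⟨r1, r2⟩ := halg r hr
  obtain ⟨s1, s2⟩ := halg s hs
  have hfr : FiniteDimensional ℚ (IntermediateField.adjoin ℚ {r}) :=
    IntermediateField.adjoin.finiteDimensional r1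
  have hfs : FiniteDimensional ℚ (IntermediateField.adjoin ℚ {s}) :=
    IntermediateField.adjoin.finiteDimensional s1
  obtain ⟨E, hE⟩ : ∃ E : IntermediateField ℚ ℂ,
      E = IntermediateField.adjoin ℚ {r} ⊔ IntermediateField.adjoin ℚ {s} := ⟨_, rfl⟩
  have hfd : FiniteDimensional ℚ E := by
    rw [hE]
    exact IntermediateField.finiteDimensional_sup _ _
  have hrE : r ∈ E := by
    have h : IntermediateField.adjoin ℚ {r} ≤ E := by rw [hE]; exact le_sup_left
    exact h (IntermediateField.mem_adjoin_simple_self ℚ r)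
  have hsE : s ∈ E := by
    have h : IntermediateField.adjoin ℚ {s} ≤ E := by rw [hE]; exact le_sup_right
    exact h (IntermediateField.mem_adjoin_simple_self ℚ s)
  have hfin : Module.finrank ℚ E ≤ d * d := by
    rw [hE]
    refine (IntermediateField.finrank_sup_le _ _).trans ?_
    rw [IntermediateField.adjoin.finrank r1, IntermediateField.adjoin.finrank s1]
    exact Nat.mul_le_mul r2 s2
  exact ⟨E, inferInstance, ⟨⟩, E.val.toRingHom, ⟨r, hrE⟩, ⟨s, hsE⟩, hfin, rfl, rfl⟩

/-- **Thue-Mahler, uniformly.** -/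
theorem tm_count (d : ℕ) : ∃ C : ℝ, 1 ≤ C ∧ ∀ V : ℤ[X], V.natDegree = d →
    (∃ r ∈ (V.map (Int.castRingHom ℂ)).roots, ∃ s ∈ (V.map (Int.castRingHom ℂ)).roots, r ≠ s) →
      ∀ (Q : Finset ℕ) (B : Finset ℤ), (∀ k ∈ B, Sm Q (V.eval k)) →
        (B.card : ℝ) ≤ C ^ (Q.card + 1) := by
  classical
  choose C hC1 hC using count_field
  obtain ⟨M, hM⟩ : ∃ M, M = ∑ n ∈ range (d * d + 1), C n := ⟨_, rfl⟩
  have hCM : ∀ n, n ≤ d * d → C n ≤ M := by
    intro n hn
    rw [hM]
    exact single_le_sum (f := C) (fun i _ => by linarith [hC1 i]) (mem_range.2 (by omega))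
  have hM1 : 1 ≤ M := (hC1 0).trans (hCM 0 (Nat.zero_le _))
  refine ⟨M ^ (d * d + 1), one_le_pow₀ hM1, ?_⟩
  rintro V hd ⟨r, hr, s, hs, hrs⟩ Q B hB
  have hr' := (mem_roots'.1 hr)
  have hs' := (mem_roots'.1 hs)
  have hV : V ≠ 0 := by
    rintro rfl
    apply hr'.1
    simp
  obtain ⟨K, _, _, φ, r1, s1, hK, h1, h2⟩ := two_roots V d hd hV r s hr'.2 hs'.2
  have hφ : ∀ t : K, (V.map (Int.castRingHom ℂ)).eval (φ t) = φ ((V.map (Int.castRingHom K)).eval t) := by
    intro t
    rw [eval_map, eval_map, hom_eval₂]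
    congr 1
    exact RingHom.ext_int _ _
  have hroot : ∀ t : K, (V.map (Int.castRingHom ℂ)).eval (φ t) = 0 →
      (V.map (Int.castRingHom K)).eval t = 0 := by
    intro t ht
    rw [hφ] at ht
    exact (map_eq_zero φ).1 ht
  have h3 := hC (Module.finrank ℚ K) K rfl V r1 s1 (by
      rintro rfl
      exact hrs (h1.symm.trans h2))
    (hroot r1 (by rw [h1]; exact hr'.2)) (hroot s1 (by rw [h2]; exact hs'.2)) Q B hB
  refine h3.trans ?_
  calc C (Module.finrank ℚ K) ^ (Module.finrank ℚ K * Q.card + 1)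
      ≤ M ^ (Module.finrank ℚ K * Q.card + 1) :=
        pow_le_pow_left₀ (by linarith [hC1 (Module.finrank ℚ K)]) (hCM _ hK) _
    _ ≤ M ^ ((d * d + 1) * (Q.card + 1)) := by
        refine pow_le_pow_right₀ hM1 ?_
        have : Module.finrank ℚ K * Q.card ≤ d * d * Q.card := Nat.mul_le_mul_right _ hK
        nlinarith
    _ = _ := by rw [pow_mul]

end Pool.Agent.H76.PX
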