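import Pool.Agent.H76.PX.F
import Pool.Agent.H76.PX.TM

/-!
Polynomials which are pure powers up to a constant, and the sum over the covering polynomials.
-/

open Polynomial

namespace Pool.Agent.H76.PX

open Pool.Agent.H322R2 Pool.Agent.H674R3

/-- the centre of the roots -/
noncomputable def cen (U : ℤ[X]) : ℚ := -(U.nextCoeff : ℚ) / (U.natDegree * U.leadingCoeff)

/-- the value at the centre -/
noncomputable def vc (U : ℤ[X]) : ℚ := (U.map (Int.castRingHom ℚ)).eval (cen U)

/-- `U = vc U + lead (X - cen U) ^ d` -/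
def Pure (U : ℤ[X]) : Prop :=
  U.map (Int.castRingHom ℚ) = C (vc U) + C (U.leadingCoeff : ℚ) * (X - C (cen U)) ^ U.natDegree

lemma Pure.eval {U : ℤ[X]} (h : Pure U) (k : ℤ) :
    ((U.eval k : ℤ) : ℚ) = vc U + U.leadingCoeff * ((k : ℚ) - cen U) ^ U.natDegree := by
  have h1 : (U.map (Int.castRingHom ℚ)).eval (k : ℚ) = ((U.eval k : ℤ) : ℚ) := by
    rw [← eq_intCast (Int.castRingHom ℚ) k, eval_map, eval₂_hom, eq_intCast]
  rw [← h1, h]
  simp

/-- if all the complex roots of `w U - e` are equal, `U` is pure -/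
lemma pure_of_roots (U : ℤ[X]) (d : ℕ) (hd : 2 ≤ d) (hU : U.natDegree = d) (w e : ℤ) (hw : w ≠ 0)
    (hall : ∀ r ∈ ((C w * U - C e : ℤ[X]).map (Int.castRingHom ℂ)).roots,
      ∀ s ∈ ((C w * U - C e : ℤ[X]).map (Int.castRingHom ℂ)).roots, r = s) :
    Pure U ∧ (e : ℚ) = w * vc U := by
  have hinjC : Function.Injective (Int.castRingHom ℂ) := Int.cast_injective
  have hinjQC : Function.Injective (algebraMap ℚ ℂ) := (algebraMap ℚ ℂ).injective
  obtain ⟨V, hV⟩ : ∃ V, V = (C w * U - C e : ℤ[X]) := ⟨_, rfl⟩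
  rw [← hV] at hall
  have hwU : (C w * U).natDegree = d := by rw [natDegree_C_mul hw, hU]
  have hVd : V.natDegree = d := by
    rw [hV, natDegree_sub_eq_left_of_natDegree_lt (by rw [natDegree_C, hwU]; omega), hwU]
  have hVl : V.leadingCoeff = w * U.leadingCoeff := by
    rw [leadingCoeff, hVd, hV, coeff_sub, coeff_C_mul, coeff_C, if_neg (by omega), sub_zero,
      leadingCoeff, hU]
  have hVn : V.nextCoeff = w * U.nextCoeff := by
    rw [nextCoeff_of_natDegree_pos (by omega), nextCoeff_of_natDegree_pos (by omega), hVd, hU, hV,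
      coeff_sub, coeff_C_mul, coeff_C, if_neg (by omega), sub_zero]
  have ha0 : U.leadingCoeff ≠ 0 := by
    intro h0
    rw [leadingCoeff_eq_zero] at h0
    rw [h0, natDegree_zero] at hU
    omega
  obtain ⟨R, hR⟩ : ∃ R, R = (V.map (Int.castRingHom ℂ)).roots := ⟨_, rfl⟩
  rw [← hR] at hall
  have hVC : (V.map (Int.castRingHom ℂ)).natDegree = d := by
    rw [natDegree_map_eq_of_injective hinjC, hVd]
  have hsp := IsAlgClosed.splits (V.map (Int.castRingHom ℂ))
  have hRc : R.card = d := by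
    rw [hR, ← hsp.natDegree_eq_card_roots, hVC]
  obtain ⟨r, hr⟩ : ∃ r, r ∈ R := Multiset.card_pos_iff_exists_mem.1 (by omega)
  have hrep : R = Multiset.replicate d r := by
    rw [Multiset.eq_replicate]
    exact ⟨hRc, fun b hb => hall b hb r hr⟩
  have hwC : (w : ℂ) ≠ 0 := by exact_mod_cast hw
  have haC : (U.leadingCoeff : ℂ) ≠ 0 := by exact_mod_cast ha0
  have hdC : (d : ℂ) ≠ 0 := by exact_mod_cast (by omega : d ≠ 0)
  -- the root is the centre
  have hrc : r = ((cen U : ℚ) : ℂ) := by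
    have h1 := hsp.nextCoeff_eq_neg_sum_roots_mul_leadingCoeff
    rw [← hR, hrep, Multiset.sum_replicate, leadingCoeff_map_of_injective hinjC,
      nextCoeff_map hinjC, eq_intCast, eq_intCast, hVl, hVn, nsmul_eq_mul] at h1
    push_cast at h1
    unfold cen
    rw [hU]
    push_cast
    rw [eq_div_iff (mul_ne_zero hdC haC)]
    have h2 : (w : ℂ) * (r * (d * U.leadingCoeff)) = w * (-(U.nextCoeff : ℂ)) := by
      linear_combination h1
    exact mul_left_cancel₀ hwC h2
  -- the polynomial identity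
  have hid : V.map (Int.castRingHom ℂ)
      = C ((w * U.leadingCoeff : ℤ) : ℂ) * (X - C (((cen U : ℚ) : ℂ))) ^ d := by
    have h1 := hsp.eq_prod_roots
    rw [← hR, hrep, Multiset.map_replicate, Multiset.prod_replicate,
      leadingCoeff_map_of_injective hinjC, eq_intCast, hVl, hrc] at h1
    exact h1
  have hidQ : (C w * U - C e : ℤ[X]).map (Int.castRingHom ℚ)
      = C ((w * U.leadingCoeff : ℤ) : ℚ) * (X - C (cen U)) ^ d := by
    apply Polynomial.map_injective (algebraMap ℚ ℂ) hinjQC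
    rw [Polynomial.map_map, ← hV]
    have h2 : (algebraMap ℚ ℂ).comp (Int.castRingHom ℚ) = Int.castRingHom ℂ :=
      RingHom.ext_int _ _
    rw [h2, hid]
    simp
  rw [Polynomial.map_sub, Polynomial.map_mul, map_C, map_C, eq_intCast, eq_intCast] at hidQ
  have hwQ : (w : ℚ) ≠ 0 := by exact_mod_cast hw
  have he : (e : ℚ) = w * vc U := by
    have h3 := congrArg (fun f => Polynomial.eval (cen U) f) hidQ
    simp only [eval_sub, eval_mul, eval_C, eval_pow, eval_X, sub_self] at h3
    rw [zero_pow (by omega), mul_zero] at h3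
    unfold vc
    linarith
  refine ⟨?_, he⟩
  unfold Pure
  have h4 : C (w : ℚ) * U.map (Int.castRingHom ℚ)
      = C (w : ℚ) * (C (vc U) + C (U.leadingCoeff : ℚ) * (X - C (cen U)) ^ U.natDegree) := by
    rw [hU, mul_add, ← C_mul, ← he, ← mul_assoc, ← C_mul]
    push_cast at hidQ
    rw [← hidQ]
    ring
  exact mul_left_cancel₀ (by rwa [Ne, C_eq_zero]) h4

/-- the integer points on the curve `F (x, y) = t` are bounded -/
def Bdd (F : MvPolynomial (Fin 2) ℤ) (t : ℤ) : Prop :=
  ∀ x y : ℤ, MvPolynomial.eval ![x, y] F = t →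
    max x.natAbs y.natAbs ≤ ((F.totalDegree + 1) * (len F + t.natAbs)) ^ (kG F.totalDegree)

theorem sunit_main (d : ℕ) (hd : 4 ≤ d) : ∃ C : ℝ, 1 ≤ C ∧ ∀ F : MvPolynomial (Fin 2) ℤ, F.totalDegree = d →
    Squarefree (MvPolynomial.map (Int.castRingHom ℚ)
      (MvPolynomial.homogeneousComponent F.totalDegree F)) →
    ∃ P : Finset (ℚ × ℚ), P.card ≤ kL d ∧
      (∀ p ∈ P, p.2 ≠ 0 ∧ ∃ (x₀ y₀ u v a b : ℤ), (u ≠ 0 ∨ v ≠ 0) ∧ a ≠ 0 ∧
        ∀ k : ℤ, ((MvPolynomial.eval ![x₀ + u * k, y₀ + v * k] F : ℤ) : ℚ)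
          = p.1 + p.2 * ((a : ℚ) * k + b) ^ d) ∧
      ∀ (Q : Finset ℕ) (w e : ℤ) (A : Finset ℤ), w ≠ 0 →
        (∀ n ∈ A, Sm Q n) →
        (∀ n ∈ A, ∃ t : ℤ, w * t = n + e ∧ ¬ Bdd F t) →
        (∀ n ∈ A, ∀ p ∈ P, ∀ z : ℤ, (e : ℚ) = w * p.1 → (n : ℚ) ≠ w * p.2 * (z : ℚ) ^ d) →
        (A.card : ℝ) ≤ C ^ (Q.card + 1) := by
  classical
  obtain ⟨C0, hC0, hcount⟩ := tm_count d
  have hkL : (1 : ℝ) ≤ kL d := by
    unfold kL kap
    exact_mod_cast Nat.one_le_iff_ne_zero.2 (by positivity)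
  refine ⟨kL d * C0, by nlinarith, ?_⟩
  intro F hF hsq
  obtain ⟨S, h1, h2, h3⟩ := main8' F (by omega) hsq
  rw [hF] at h1 h2
  obtain ⟨P, hP⟩ : ∃ P, P = (S.filter (fun U => U.natDegree = d ∧ Pure U)).image
    (fun U => (vc U, (U.leadingCoeff : ℚ) / ((cen U).den : ℚ) ^ d)) := ⟨_, rfl⟩
  -- a pure polynomial in terms of an integer
  have hpure : ∀ U : ℤ[X], U.natDegree = d → Pure U → ∀ k : ℤ, ((U.eval k : ℤ) : ℚ)
      = vc U + (U.leadingCoeff : ℚ) / ((cen U).den : ℚ) ^ d
        * ((((cen U).den : ℤ) : ℚ) * k + ((-(cen U).num : ℤ) : ℚ)) ^ d := by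
    intro U hU hp k
    rw [hp.eval, hU]
    have hden : ((cen U).den : ℚ) ≠ 0 := by exact_mod_cast (cen U).den_nz
    have hr : ((cen U).num : ℚ) = cen U * (cen U).den := (Rat.mul_den_eq_num (cen U)).symm
    push_cast
    rw [hr, show ((cen U).den : ℚ) * k + -(cen U * (cen U).den) = (cen U).den * (k - cen U) by ring,
      mul_pow]
    field_simp
  refine ⟨P, ?_, ?_, ?_⟩
  · rw [hP]
    exact Finset.card_image_le.trans ((Finset.card_filter_le _ _).trans h1)
  · intro p hp
    rw [hP, Finset.mem_image] at hp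
    obtain ⟨U, hU, rfl⟩ := hp
    rw [Finset.mem_filter] at hU
    obtain ⟨hUS, hUd, hUp⟩ := hU
    have hden : ((cen U).den : ℚ) ≠ 0 := by exact_mod_cast (cen U).den_nz
    constructor
    · simp only
      have h4 : (U.leadingCoeff : ℚ) ≠ 0 := by
        intro h0
        have h4 : U.leadingCoeff = 0 := by exact_mod_cast h0
        rw [leadingCoeff_eq_zero] at h4
        rw [h4, natDegree_zero] at hUd
        omega
      exact div_ne_zero h4 (pow_ne_zero _ hden)
    · rcases h2 U hUS with ⟨-, x₀, y₀, u, v, huv, hev⟩ | h0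
      · refine ⟨x₀, y₀, u, v, (cen U).den, -(cen U).num, huv, by exact_mod_cast (cen U).den_nz, ?_⟩
        intro k
        rw [← hev k, hpure U hUd hUp]
      · omega
  · intro Q w e A hw hsm hbad hP2
    have hwZ : (w : ℚ) ≠ 0 := by exact_mod_cast hw
    have hcc : (1 : ℝ) ≤ C0 ^ (Q.card + 1) := one_le_pow₀ hC0
    have hcov : ∀ n ∈ A, ∃ U ∈ S, ∃ k : ℤ, w * U.eval k - e = n := by
      intro n hn
      obtain ⟨t, ht, hnb⟩ := hbad n hn
      by_contra hcon
      push Not at hcon
      apply hnb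
      intro x y hxy
      rw [hF]
      have h5 := h3 t (fun U hU k hk => hcon U hU k (by rw [hk, ht]; ring)) x y hxy
      rw [hF] at h5
      exact h5
    choose! f hf1 hf2 using hcov
    have hB : ∀ U ∈ S, ((A.filter (fun n => f n = U)).card : ℝ) ≤ C0 ^ (Q.card + 1) := by
      intro U hU
      obtain ⟨B, hBd⟩ : ∃ B, B = A.filter (fun n => f n = U) := ⟨_, rfl⟩
      rw [← hBd]
      have hBA : ∀ n ∈ B, n ∈ A ∧ ∃ k : ℤ, w * U.eval k - e = n := by
        intro n hn
        rw [hBd, Finset.mem_filter] at hn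
        refine ⟨hn.1, ?_⟩
        rw [← hn.2]
        exact hf2 n hn.1
      rcases h2 U hU with ⟨hUd, -⟩ | hU0
      · -- degree `d`
        obtain ⟨V, hV⟩ : ∃ V, V = (C w * U - C e : ℤ[X]) := ⟨_, rfl⟩
        have hwU : (C w * U).natDegree = d := by rw [natDegree_C_mul hw, hUd]
        have hVd : V.natDegree = d := by
          rw [hV, natDegree_sub_eq_left_of_natDegree_lt (by rw [natDegree_C, hwU]; omega), hwU]
        have hVe : ∀ k : ℤ, V.eval k = w * U.eval k - e := by
          intro k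
          rw [hV]; simp
        by_cases hne : ∃ r ∈ (V.map (Int.castRingHom ℂ)).roots,
            ∃ s ∈ (V.map (Int.castRingHom ℂ)).roots, r ≠ s
        · choose! κ hκ using fun n hn => (hBA n hn).2
          have hinj : Set.InjOn κ (B : Set ℤ) := by
            intro m hm n hn hmn
            rw [← hκ m (Finset.mem_coe.1 hm), ← hκ n (Finset.mem_coe.1 hn), hmn]
          have h6 := hcount V hVd hne Q (B.image κ) (by
            intro k hk
            rw [Finset.mem_image] at hk
            obtain ⟨n, hn, rfl⟩ := hk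
            rw [hVe, hκ n hn]
            exact hsm n (hBA n hn).1)
          rwa [Finset.card_image_of_injOn hinj] at h6
        · -- the pure case does not occur
          push Not at hne
          rw [hV] at hne
          obtain ⟨g1, g2⟩ := pure_of_roots U d (by omega) hUd w e hw hne
          have hB0 : B = ∅ := by
            rw [Finset.eq_empty_iff_forall_notMem]
            intro n hn
            obtain ⟨hnA, k, hk⟩ := hBA n hn
            have h7 : ((vc U, (U.leadingCoeff : ℚ) / ((cen U).den : ℚ) ^ d) : ℚ × ℚ) ∈ P := by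
              rw [hP, Finset.mem_image]
              exact ⟨U, Finset.mem_filter.2 ⟨hU, hUd, g1⟩, rfl⟩
            apply hP2 n hnA _ h7 ((cen U).den * k + (-(cen U).num)) g2
            have h8 := hpure U hUd g1 k
            rw [← hk]
            push_cast at h8 ⊢
            rw [h8, g2]
            ring
          rw [hB0, Finset.card_empty, Nat.cast_zero]
          positivity
      · -- a constant
        have hB1 : B.card ≤ 1 := by
          apply Finset.card_le_one.2
          intro m hm n hn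
          obtain ⟨-, k, hk⟩ := hBA m hm
          obtain ⟨-, k', hk'⟩ := hBA n hn
          rw [← hk, ← hk', eq_C_of_natDegree_eq_zero hU0, eval_C, eval_C]
        calc (B.card : ℝ) ≤ 1 := by exact_mod_cast hB1
          _ ≤ _ := hcc
    have hsum : (A.card : ℝ) = ∑ U ∈ S, ((A.filter (fun n => f n = U)).card : ℝ) := by
      rw [← Nat.cast_sum, ← Finset.card_eq_sum_card_fiberwise (fun n hn => hf1 n hn)]
    rw [hsum]
    calc ∑ U ∈ S, ((A.filter (fun n => f n = U)).card : ℝ)
        ≤ ∑ _U ∈ S, C0 ^ (Q.card + 1) := Finset.sum_le_sum hB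
      _ = (S.card : ℝ) * C0 ^ (Q.card + 1) := by
        rw [Finset.sum_const, nsmul_eq_mul]
      _ ≤ (kL d : ℝ) * C0 ^ (Q.card + 1) := by
        gcongr
      _ ≤ (kL d : ℝ) ^ (Q.card + 1) * C0 ^ (Q.card + 1) := by
        have h9 : (kL d : ℝ) ≤ (kL d : ℝ) ^ (Q.card + 1) := le_self_pow₀ hkL (by omega)
        gcongr
      _ = _ := by rw [← mul_pow]

end Pool.Agent.H76.PX
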