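import Pool.Agent.H76.PX.G

/-!
# From given primes to small radicals

(`sum_sets_primes` and the deduction are those of the library modules `TH498.HF.TM3`, `K7.H12.SR.Main`.)
-/

set_option autoImplicit false

namespace Pool.Agent.H76.PX

open Finset

/-- weighted count of the sets of primes -/
theorem sum_sets_primes (B : ℝ) (hB : 1 ≤ B) : ∃ (c : ℝ) (k : ℕ), 0 < c ∧
    ∀ (X : ℝ), 3 ≤ X → ∀ (S : Finset (Finset ℕ)), (∀ s ∈ S, ∀ p ∈ s, p.Prime ∧ (p : ℝ) ≤ X) →
    ∑ s ∈ S, ∏ p ∈ s, (B / (p : ℝ)) ≤ c * Real.log X ^ k := by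
  classical
  obtain ⟨C, hC⟩ := Pool.Agent.Helper256.KM.mertens_inv
  obtain ⟨k, hk⟩ := exists_nat_ge B
  refine ⟨Real.exp (B * C), k, Real.exp_pos _, ?_⟩
  intro X hX S hS
  have hB0 : 0 < B := by linarith
  have hlog1 : 1 ≤ Real.log X := by
    rw [Real.le_log_iff_exp_le (by linarith)]
    have := Real.exp_one_lt_d9
    linarith
  have hlog0 : 0 < Real.log X := by linarith
  have hll : 0 ≤ Real.log (Real.log X) := Real.log_nonneg hlog1
  set n := ⌊X⌋₊ with hn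
  have hn3 : 3 ≤ n := Nat.le_floor (by exact_mod_cast hX)
  have hnX : (n : ℝ) ≤ X := Nat.floor_le (by linarith)
  have hn3' : (3 : ℝ) ≤ n := by exact_mod_cast hn3
  set U : Finset ℕ := (Finset.Icc 1 n).filter Nat.Prime with hU
  have hSU : ∀ s ∈ S, s ⊆ U := by
    intro s hs p hp
    obtain ⟨h1, h2⟩ := hS s hs p hp
    rw [hU, Finset.mem_filter, Finset.mem_Icc]
    exact ⟨⟨h1.one_lt.le, Nat.le_floor h2⟩, h1⟩
  have h1 : ∑ s ∈ S, ∏ p ∈ s, (B / (p : ℝ)) ≤ Real.exp (∑ p ∈ U, B / (p : ℝ)) := by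
    calc ∑ s ∈ S, ∏ p ∈ s, (B / (p : ℝ)) ≤ ∑ s ∈ U.powerset, ∏ p ∈ s, (B / (p : ℝ)) :=
          Finset.sum_le_sum_of_subset_of_nonneg (fun s hs => Finset.mem_powerset.2 (hSU s hs))
            fun s _ _ => Finset.prod_nonneg fun p _ => by positivity
      _ = ∏ p ∈ U, (1 + B / (p : ℝ)) := (Finset.prod_one_add _).symm
      _ ≤ ∏ p ∈ U, Real.exp (B / (p : ℝ)) := by
          refine Finset.prod_le_prod (fun p _ => by positivity) fun p _ => ?_
          linarith [Real.add_one_le_exp (B / (p : ℝ))]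
      _ = _ := (Real.exp_sum _ _).symm
  refine h1.trans ?_
  have h4 := (abs_le.1 (hC n hn3)).2
  have h5 : Real.log (Real.log n) ≤ Real.log (Real.log X) := by
    have h6 : 0 < Real.log n := Real.log_pos (by linarith)
    exact Real.log_le_log h6 (Real.log_le_log (by linarith) hnX)
  have h2 : ∑ p ∈ U, B / (p : ℝ) ≤ B * (Real.log (Real.log X) + C) := by
    have h3 : ∑ p ∈ U, B / (p : ℝ) = B * ∑ p ∈ U, 1 / (p : ℝ) := by
      rw [Finset.mul_sum]
      exact Finset.sum_congr rfl fun v _ => by ring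
    rw [h3]
    refine mul_le_mul_of_nonneg_left ?_ hB0.le
    rw [hU]
    linarith
  refine (Real.exp_le_exp.2 h2).trans ?_
  have h3 : B * (Real.log (Real.log X) + C) ≤ B * C + k * Real.log (Real.log X) := by
    nlinarith
  refine (Real.exp_le_exp.2 h3).trans ?_
  rw [Real.exp_add, Real.exp_nat_mul, Real.exp_log hlog0]

/-- the product of the primes dividing `n` -/
def rad (n : ℤ) : ℕ := ∏ p ∈ n.natAbs.primeFactors, p

/-- sets with few elements composed of given primes have few elements with small radical -/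
theorem rad_sum (B : ℝ) (hB1 : 1 ≤ B) : ∃ (C : ℝ) (k : ℕ), 0 < C ∧ ∀ (E : Set ℤ),
    (∀ (Q : Finset ℕ) (s : Finset ℤ), (∀ n ∈ s, n ∈ E ∧ Sm Q n) → (s.card : ℝ) ≤ B ^ (Q.card + 1)) →
    ∀ (Y : ℝ), 1 ≤ Y → ∀ s : Finset ℤ, (∀ n ∈ s, n ∈ E ∧ n ≠ 0 ∧ (rad n : ℝ) ≤ Y) →
      (s.card : ℝ) ≤ C * Y * (1 + Real.log Y) ^ k := by
  classical
  obtain ⟨c, k, hc, h⟩ := sum_sets_primes B hB1
  refine ⟨B * c * 2 ^ k, k, by positivity, ?_⟩
  intro E hB Y hY s hs
  let ψ : ℤ → Finset ℕ := fun n => n.natAbs.primeFactors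
  have hψ : ∀ x ∈ s, ((∏ p ∈ ψ x, p : ℕ) : ℝ) ≤ Y := fun x hx => (hs x hx).2.2
  have hprime : ∀ x, ∀ p ∈ ψ x, p.Prime := fun x p hp => Nat.prime_of_mem_primeFactors hp
  have hcard : (s.card : ℝ) = ∑ P ∈ s.image ψ, ((s.filter fun x => ψ x = P).card : ℝ) := by
    exact_mod_cast Finset.card_eq_sum_card_image ψ s
  have hfib : ∀ P ∈ s.image ψ, ((s.filter fun x => ψ x = P).card : ℝ) ≤
      B * Y * ∏ p ∈ P, ((B : ℝ) / (p : ℝ)) := by
    intro P hP
    obtain ⟨x0, hx0, hx0P⟩ := Finset.mem_image.1 hP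
    have h2 := hB P (s.filter fun x => ψ x = P) (by
      intro x hx
      obtain ⟨hx1, hx2⟩ := Finset.mem_filter.1 hx
      obtain ⟨g1, g2, -⟩ := hs x hx1
      refine ⟨g1, g2, ?_⟩
      intro p hp hpd
      rw [← hx2]
      exact Nat.mem_primeFactors.2 ⟨hp, Int.natCast_dvd.1 hpd, Int.natAbs_ne_zero.2 g2⟩)
    have h3 : ((∏ p ∈ P, p : ℕ) : ℝ) ≤ Y := by
      rw [← hx0P]
      exact hψ x0 hx0
    have hpos : 0 < ∏ p ∈ P, (p : ℝ) := by
      refine Finset.prod_pos fun p hp => ?_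
      rw [← hx0P] at hp
      exact_mod_cast (hprime x0 p hp).pos
    rw [Nat.cast_prod] at h3
    refine h2.trans ?_
    rw [Finset.prod_div_distrib, Finset.prod_const, pow_succ]
    have h4 : (B : ℝ) ^ P.card * B = B * ((∏ p ∈ P, (p : ℝ)) * ((B : ℝ) ^ P.card / ∏ p ∈ P, (p : ℝ))) := by
      field_simp
    rw [h4, mul_assoc (B : ℝ) Y]
    refine mul_le_mul_of_nonneg_left (mul_le_mul_of_nonneg_right h3 (by positivity)) (by linarith)
  set X : ℝ := max 3 Y with hX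
  have hX3 : 3 ≤ X := le_max_left _ _
  have h5 := h X hX3 (s.image ψ) (by
    intro P hP p hp
    obtain ⟨x, hx, rfl⟩ := Finset.mem_image.1 hP
    refine ⟨hprime x p hp, ?_⟩
    refine le_trans ?_ ((hψ x hx).trans (le_max_right _ _))
    have h6 : p ≤ ∏ q ∈ ψ x, q := by
      refine Nat.le_of_dvd (Finset.prod_pos fun q hq => (hprime x q hq).pos)
        (Finset.dvd_prod_of_mem _ hp)
    exact_mod_cast h6)
  have hlogY : 0 ≤ Real.log Y := Real.log_nonneg hY
  have hlogX : Real.log X ≤ 2 * (1 + Real.log Y) := by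
    rcases le_total Y 3 with h7 | h7
    · have h8 : X = 3 := max_eq_left h7
      rw [h8]
      have h9 : Real.log 3 ≤ 2 := by
        rw [Real.log_le_iff_le_exp (by norm_num)]
        have h10 := Real.add_one_le_exp (2 : ℝ)
        linarith
      linarith
    · have h8 : X = Y := max_eq_right h7
      rw [h8]
      linarith
  have hlogX0 : 0 ≤ Real.log X := Real.log_nonneg (by linarith)
  have h11 : Real.log X ^ k ≤ 2 ^ k * (1 + Real.log Y) ^ k := by
    rw [← mul_pow]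
    exact pow_le_pow_left₀ hlogX0 hlogX k
  rw [hcard]
  calc ∑ P ∈ s.image ψ, ((s.filter fun x => ψ x = P).card : ℝ) ≤
        ∑ P ∈ s.image ψ, B * Y * ∏ p ∈ P, ((B : ℝ) / (p : ℝ)) := Finset.sum_le_sum hfib
    _ = B * Y * ∑ P ∈ s.image ψ, ∏ p ∈ P, ((B : ℝ) / (p : ℝ)) := by rw [Finset.mul_sum]
    _ ≤ B * Y * (c * Real.log X ^ k) := mul_le_mul_of_nonneg_left h5 (by positivity)
    _ ≤ B * Y * (c * (2 ^ k * (1 + Real.log Y) ^ k)) := by
      refine mul_le_mul_of_nonneg_left (mul_le_mul_of_nonneg_left h11 hc.le) (by positivity)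
    _ = _ := by ring

/-- from bounds for the finite subsets -/
theorem finite_ncard {E : Set ℤ} {b : ℝ} (h : ∀ T : Finset ℤ, (∀ t ∈ T, t ∈ E) → (T.card : ℝ) ≤ b) :
    E.Finite ∧ (E.ncard : ℝ) ≤ b := by
  have hfin : E.Finite := by
    by_contra hcon
    obtain ⟨T, hT, hT'⟩ := (show E.Infinite from hcon).exists_subset_card_eq (⌊b⌋₊ + 1)
    have h1 := h T (fun t ht => hT (mem_coe.2 ht))
    rw [hT'] at h1
    have h2 := Nat.lt_floor_add_one b
    push_cast at h1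
    linarith
  refine ⟨hfin, ?_⟩
  rw [Set.ncard_eq_toFinset_card _ hfin]
  exact h _ fun t ht => (Set.Finite.mem_toFinset hfin).1 ht

end Pool.Agent.H76.PX
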